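import Pool.Agent.Q226.ENH.Assembly
import Pool.Agent.Q226.ENH.TaskLarge
import Pool.Agent.Q226.ENH.TaskCard
import Pool.Agent.Q226.ENH.TaskChain
import Pool.Agent.Q226.ENH.TaskCov
import Pool.Agent.Q226.ENH.TaskDim
import Pool.Agent.Q226.ENH.TaskGlue
import Pool.Agent.Q226.ENH.TaskLine
import Pool.Agent.Q226.ENH.TaskPruefer
import Pool.Agent.Q226.ENH.TaskProd

/-!
# Everywhere non-Hausdorff manifolds with `E(M) > OH(M)`

Such a manifold exists if and only if `cov(B) < 2^ω`, that is, if the real line is covered by fewer
than `2^ω` nowhere dense sets.

Proof. Let `M` be everywhere non-Hausdorff. If `M` is the union of `κ` open Hausdorff sets, their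
boundaries cover `M`, so `κ ≥ cov(B)`. Hence, if `cov(B) = 2^ω` then `OH(M) ≥ 2^ω`. The components of
the sets of a minimal cover by open Hausdorff sets are connected Hausdorff manifolds, so they have at
most `2^ω` points; each meets at most `2^ω` components of each set of the cover, and since `M` is
connected there are at most `OH(M)` components; so `M` has at most `OH(M)` points and
`E(M) ≤ OH(M)`. Conversely, if the line is the union of `κ < 2^ω` closed nowhere dense sets, attach to
it `κ` further lines, the one with the number `α` along the complement of the set `C_α`. The product of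
this space with the Pruefer surface is everywhere non-Hausdorff, it is covered by `κ + 1` open
Hausdorff sets, and it contains `2^ω` disjoint open sets.
-/

set_option autoImplicit false

open Cardinal

namespace Pool.Agent.Results.MP_434b1a_gt.CoveringCategory

open Pool.Agent.Q226.ENH

/-- **An everywhere non-Hausdorff manifold `M` with `OH(M) < E(M)` exists if and only if
`cov(B) < 2^ω`.** -/
theorem result :
    (∃ (n : ℕ) (M : Type) (_ : TopologicalSpace M), IsENH n M ∧ OH M < E n M) ↔ cov ℝ < 𝔠 :=
  final (TaskLarge.main TaskCard.main TaskChain.main) TaskCov.main TaskDim.main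
    (TaskLine.main TaskGlue.main) (TaskPruefer.main TaskGlue.main) TaskProd.main

end Pool.Agent.Results.MP_434b1a_gt.CoveringCategory
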